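import Pool.Agent.Helper83.EIN2.Goals

/-! Project EIN2, packet CR: one solution LR, one solution LL far. -/

set_option autoImplicit false

namespace Pool.Agent.Helper35.EIN2

open Finset Topology Filter Pool.Agent.Helper83.EIN Pool.Agent.Helper83.EIN2

/-- One regular limit point, separated by the condition `P`. -/
theorem cr_one (hLIM : Pool.Agent.Helper83.EIN2.LIM) (hREG : Pool.Agent.Helper83.EIN2.REG)
    {a₀ β₀ : ℝ} (ha0 : 0 < a₀) (ha1 : a₀ < 1) (hb0 : 0 < β₀) (hb1 : β₀ < 1)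
    (z : Fin 6 → ℝ) (hz : ∀ i, 0 < z i) (hF : FR a₀ β₀ 0 z = 0)
    (hd : ∀ d : Fin 6 → ℝ, HasDerivAt (fun s : ℝ ↦ FR a₀ β₀ 0 (z + s • d)) 0 0 → d = 0)
    (P : ℝ → (Fin 6 → ℝ) → Prop) (δ₀ : ℝ) (hδ₀ : 0 < δ₀)
    (hP1 : ∀ β v, |β - β₀| < δ₀ → P β v → ∀ L ∈ Lim β₀, (∀ i, |v i - L i| < δ₀) → L = z)
    (hP2 : ∀ β v, |β - β₀| < δ₀ → (∀ i, |v i - z i| < δ₀) → P β v) :
    ∃ ε > 0, ∀ a β t, Near2 a₀ β₀ ε a β t →
      {v : Fin 6 → ℝ | Sol2 a β t v ∧ P β v}.ncard = 1 := by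
  obtain ⟨δ, hδ, hδδ, ε₁, hε₁, h1⟩ := hREG a₀ β₀ z hz hF hd δ₀ hδ₀
  obtain ⟨ε₂, hε₂, h2⟩ := hLIM a₀ β₀ ha0 ha1 hb0 hb1 δ hδ
  refine ⟨min δ₀ (min ε₁ ε₂), lt_min hδ₀ (lt_min hε₁ hε₂), fun a β t hN ↦ ?_⟩
  have hβ : |β - β₀| < δ₀ := hN.hb.trans_le (min_le_left _ _)
  have hN1 := (hN.mono (min_le_right _ _)).mono (min_le_left _ _)
  have hN2 := (hN.mono (min_le_right _ _)).mono (min_le_right _ _)
  obtain ⟨v₀, ⟨hv1, hv2⟩, hv3⟩ := h1 a β t hN1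
  rw [Set.ncard_eq_one]
  refine ⟨v₀, ?_⟩
  ext v
  simp only [Set.mem_setOf_eq, Set.mem_singleton_iff]
  constructor
  · rintro ⟨hS, hP⟩
    obtain ⟨L, hL, hLv⟩ := h2 a β t v hN2 hS
    have hLz := hP1 β v hβ hP L hL (fun i ↦ (hLv i).trans_le hδδ)
    rw [hLz] at hLv
    exact hv3 v ⟨hLv, hS⟩
  · rintro rfl
    exact ⟨hv2, hP2 β v hβ (fun i ↦ (hv1 i).trans_le hδδ)⟩

theorem uL_gt {β : ℝ} (h0 : 0 < β) (h1 : β < 1) : β < uL β := by
  unfold uL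
  rw [lt_div_iff₀ (by
    have : 0 ≤ (1 - β) / (2 * (1 + β) ^ 2) := div_nonneg (by linarith) (by positivity)
    have : 0 < 1 / (2 * β) := by positivity
    linarith)]
  have e1 : β * (1 / (2 * β)) = 1 / 2 := by field_simp
  have e2 : β * ((1 - β) / (2 * (1 + β) ^ 2)) < 1 / 2 := by
    rw [← mul_div_assoc, div_lt_div_iff₀ (by positivity) (by norm_num)]
    nlinarith
  rw [mul_add, e1]
  linarith

theorem cr (hLIM : Pool.Agent.Helper83.EIN2.LIM) (hREG : Pool.Agent.Helper83.EIN2.REG)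
    (hNR : Pool.Agent.Helper83.EIN2.NR) : Pool.Agent.Helper83.EIN2.CR := by
  intro a₀ β₀ ha0 ha1 hb0 hb1
  obtain ⟨⟨f1, d1⟩, ⟨f2, d2⟩⟩ := hNR a₀ β₀ hb0 hb1
  have hg : 0 < 1 - β₀ := by linarith
  have hu := uL_gt hb0 hb1
  have hm : 0 < min β₀ (1 - β₀) / 4 := by
    have := lt_min hb0 hg
    positivity
  have hmb : min β₀ (1 - β₀) / 4 ≤ β₀ / 4 := by
    have := min_le_left β₀ (1 - β₀)
    linarith
  have hmg : min β₀ (1 - β₀) / 4 ≤ (1 - β₀) / 4 := by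
    have := min_le_right β₀ (1 - β₀)
    linarith
  obtain ⟨ε₁, hε₁, h1⟩ := cr_one hLIM hREG ha0 ha1 hb0 hb1 _ (by
    intro i
    fin_cases i
    · show (0 : ℝ) < 2
      norm_num
    · show (0 : ℝ) < 1
      norm_num
    · show (0 : ℝ) < β₀
      exact hb0
    · show (0 : ℝ) < 1 + β₀
      linarith
    · show (0 : ℝ) < 2 - β₀
      linarith
    · show (0 : ℝ) < 1 - β₀
      exact hg) f1 d1 (fun β v ↦ 1 ≤ v 3 ∧ 1 ≤ v 4) (min β₀ (1 - β₀) / 4) hm (by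
    rintro β v hβ ⟨hv3, hv4⟩ L hL hLv
    have e3 := abs_lt.1 (hLv 3)
    have e4 := abs_lt.1 (hLv 4)
    have g3 : 1 - (1 - β₀) / 4 < L 3 := by linarith [e3.2]
    have g4 : 1 - (1 - β₀) / 4 < L 4 := by linarith [e4.2]
    have g3' : L 3 = 1 - β₀ → False := fun h ↦ by
      rw [h] at e3
      have := e3.2
      linarith
    have g4' : L 4 = β₀ → False := fun h ↦ by
      rw [h] at e4
      have := e4.2
      linarith
    unfold Lim at hL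
    simp only [List.mem_cons, List.not_mem_nil, or_false] at hL
    rcases hL with rfl | rfl | rfl | rfl | rfl | rfl | rfl | rfl | rfl | rfl | rfl | rfl <;>
      first
        | rfl
        | exact (g3' rfl).elim
        | exact (g4' rfl).elim) (by
    intro β v hβ hv
    have e3 := abs_lt.1 (hv 3)
    have e4 := abs_lt.1 (hv 4)
    have z3 : (![2, 1, β₀, 1 + β₀, 2 - β₀, 1 - β₀] : Fin 6 → ℝ) 3 = 1 + β₀ := rfl
    have z4 : (![2, 1, β₀, 1 + β₀, 2 - β₀, 1 - β₀] : Fin 6 → ℝ) 4 = 2 - β₀ := rfl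
    rw [z3] at e3
    rw [z4] at e4
    exact ⟨by linarith [e3.1], by linarith [e4.1]⟩)
  set m : ℝ := min (min β₀ (1 - β₀) / 4) ((uL β₀ - β₀) / 2) with hmdef
  have hm0 : 0 < m := lt_min hm (by linarith)
  have hm1 : m ≤ β₀ / 4 := (min_le_left _ _).trans hmb
  have hm2 : m ≤ (1 - β₀) / 4 := (min_le_left _ _).trans hmg
  have hm3 : m ≤ (uL β₀ - β₀) / 2 := min_le_right _ _
  obtain ⟨ε₂, hε₂, h2⟩ := cr_one hLIM hREG ha0 ha1 hb0 hb1 _ (by
    intro i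
    fin_cases i
    · show (0 : ℝ) < uL β₀
      linarith
    · show (0 : ℝ) < 1
      norm_num
    · show (0 : ℝ) < β₀
      exact hb0
    · show (0 : ℝ) < 1 + β₀
      linarith
    · show (0 : ℝ) < β₀
      exact hb0
    · show (0 : ℝ) < 1 + β₀
      linarith) f2 d2 (fun β v ↦ 1 ≤ v 3 ∧ 1 ≤ v 5 ∧ β ≤ v 0) m hm0 (by
    rintro β v hβ ⟨hv3, hv5, hv0⟩ L hL hLv
    have e3 := abs_lt.1 (hLv 3)
    have e5 := abs_lt.1 (hLv 5)
    have e0 := abs_lt.1 (hLv 0)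
    have eβ := abs_lt.1 hβ
    have g3' : L 3 = 1 - β₀ → False := fun h ↦ by
      rw [h] at e3
      have := e3.2
      linarith
    have g5' : L 5 = 1 - β₀ → False := fun h ↦ by
      rw [h] at e5
      have := e5.2
      linarith
    have g0' : L 0 = 0 → False := fun h ↦ by
      rw [h] at e0
      have := e0.2
      have := eβ.1
      linarith
    unfold Lim at hL
    simp only [List.mem_cons, List.not_mem_nil, or_false] at hL
    rcases hL with rfl | rfl | rfl | rfl | rfl | rfl | rfl | rfl | rfl | rfl | rfl | rfl <;>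
      first
        | rfl
        | exact (g3' rfl).elim
        | exact (g5' rfl).elim
        | exact (g0' rfl).elim) (by
    intro β v hβ hv
    have e3 := abs_lt.1 (hv 3)
    have e5 := abs_lt.1 (hv 5)
    have e0 := abs_lt.1 (hv 0)
    have eβ := abs_lt.1 hβ
    have z3 : (![uL β₀, 1, β₀, 1 + β₀, β₀, 1 + β₀] : Fin 6 → ℝ) 3 = 1 + β₀ := rfl
    have z5 : (![uL β₀, 1, β₀, 1 + β₀, β₀, 1 + β₀] : Fin 6 → ℝ) 5 = 1 + β₀ := rfl
    have z0 : (![uL β₀, 1, β₀, 1 + β₀, β₀, 1 + β₀] : Fin 6 → ℝ) 0 = uL β₀ := rfl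
    rw [z3] at e3
    rw [z5] at e5
    rw [z0] at e0
    exact ⟨by linarith [e3.1], by linarith [e5.1], by linarith [e0.1, eβ.2]⟩)
  refine ⟨min ε₁ ε₂, lt_min hε₁ hε₂, fun a β t hN ↦ ⟨?_, ?_⟩⟩
  · exact h1 a β t (hN.mono (min_le_left _ _))
  · exact h2 a β t (hN.mono (min_le_right _ _))

end Pool.Agent.Helper35.EIN2
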