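import Pool.Agent.Helper83.EIN2.Goals

/-! Project EIN2, packet MMF: no solution near the far limit point of MM. -/

set_option autoImplicit false

namespace Pool.Agent.Helper35.EIN2

open Finset Topology Filter Pool.Agent.Helper83.EIN Pool.Agent.Helper83.EIN2

theorem cs_cont (p : ℝ × (Fin 6 → ℝ)) (i j k : Fin 6) (hi : p.2 i ≠ 0) (hj : p.2 j ≠ 0) :
    ContinuousAt (fun q : ℝ × (Fin 6 → ℝ) ↦ cs (q.2 i) (q.2 j) (q.2 k)) p := by
  unfold cs
  refine ContinuousAt.div ?_ ?_ (by positivity)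
  · fun_prop
  · fun_prop

/-- The bracket of the identity `star0`. -/
noncomputable def brk (q : ℝ × (Fin 6 → ℝ)) : ℝ :=
  q.1 * cs (q.2 2) (q.2 3) (q.2 1) + (1 - q.1) * cs (q.2 4) (q.2 5) (q.2 1) +
    cs (q.2 1) (q.2 2) (q.2 3) * cs (q.2 1) (q.2 3) (q.2 2) -
    (1 - q.1) * (cs (q.2 0) (q.2 4) (q.2 2) * cs (q.2 1) (q.2 2) (q.2 3) +
      cs (q.2 0) (q.2 5) (q.2 3) * cs (q.2 1) (q.2 3) (q.2 2))

theorem brk_cont (p : ℝ × (Fin 6 → ℝ)) (hp : ∀ i, p.2 i ≠ 0) : ContinuousAt brk p := by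
  have c1 := cs_cont p 2 3 1 (hp _) (hp _)
  have c2 := cs_cont p 4 5 1 (hp _) (hp _)
  have c3 := cs_cont p 1 2 3 (hp _) (hp _)
  have c4 := cs_cont p 1 3 2 (hp _) (hp _)
  have c5 := cs_cont p 0 4 2 (hp _) (hp _)
  have c6 := cs_cont p 0 5 3 (hp _) (hp _)
  have c0 : ContinuousAt (fun q : ℝ × (Fin 6 → ℝ) ↦ q.1) p := by fun_prop
  have c0' : ContinuousAt (fun q : ℝ × (Fin 6 → ℝ) ↦ 1 - q.1) p := by fun_prop
  unfold brk
  exact ((((c0.mul c1).add (c0'.mul c2)).add (c3.mul c4))).sub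
    (c0'.mul ((c5.mul c3).add (c6.mul c4)))

theorem mmf (hBD : Pool.Agent.Helper83.EIN2.BD) : Pool.Agent.Helper83.EIN2.MMF := by
  intro a₀ β₀ ha0 ha1 hb0 hb1
  set z : Fin 6 → ℝ := ![2 * β₀ * (1 - β₀), 1, β₀, 1 - β₀, β₀, 1 - β₀] with hz
  have hg : 0 < 1 - β₀ := by linarith
  have hz0 : z 0 = 2 * β₀ * (1 - β₀) := rfl
  have hz1 : z 1 = 1 := rfl
  have hz2 : z 2 = β₀ := rfl
  have hz3 : z 3 = 1 - β₀ := rfl
  have hz4 : z 4 = β₀ := rfl
  have hz5 : z 5 = 1 - β₀ := rfl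
  have hzne : ∀ i, ((a₀, z) : ℝ × (Fin 6 → ℝ)).2 i ≠ 0 := by
    intro i
    show z i ≠ 0
    fin_cases i
    · show z 0 ≠ 0
      rw [hz0]; positivity
    · show z 1 ≠ 0
      rw [hz1]; norm_num
    · show z 2 ≠ 0
      rw [hz2]; positivity
    · show z 3 ≠ 0
      rw [hz3]; positivity
    · show z 4 ≠ 0
      rw [hz4]; positivity
    · show z 5 ≠ 0
      rw [hz5]; positivity
  have hval : brk (a₀, z) < 0 := by
    have h : brk (a₀, z) = -(1 - a₀) := by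
      unfold brk cs
      simp only [hz0, hz1, hz2, hz3, hz4, hz5]
      field_simp
      ring
    rw [h]
    linarith
  have hev := (brk_cont (a₀, z) hzne).eventually (gt_mem_nhds hval)
  obtain ⟨δ, hδ, hd⟩ := Metric.eventually_nhds_iff.1 hev
  refine ⟨δ, hδ, min δ (min a₀ (min (1 - a₀) (min β₀ (min (1 - β₀) 1)))),
    lt_min hδ (lt_min ha0 (lt_min (by linarith) (lt_min hb0 (lt_min hg one_pos)))), ?_⟩
  intro a β t v hN hS hv
  have h1 := hN.ha.trans_le (min_le_left _ _)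
  have h2 := hN.mono (min_le_right _ _)
  have h3 := h2.mono (min_le_right _ _)
  have h4 := h3.mono (min_le_right _ _)
  have h5 := h4.mono (min_le_right _ _)
  have ea := abs_lt.1 (h2.ha.trans_le (min_le_left _ _))
  have ea' := abs_lt.1 (h3.ha.trans_le (min_le_left _ _))
  have eb := abs_lt.1 (h4.hb.trans_le (min_le_left _ _))
  have eb' := abs_lt.1 (h5.hb.trans_le (min_le_left _ _))
  have et : t < 1 := h5.t1.trans_le (min_le_right _ _)
  have hbd := hBD a β t v (by linarith) (by linarith) (by linarith) (by linarith) hN.t0 et hS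
  have hX : brk (a, v) < 0 := by
    apply hd
    rw [Prod.dist_eq]
    refine max_lt h1 ?_
    rw [dist_pi_lt_iff hδ]
    intro i
    exact hv i
  have hst := star0 hS
  have c2 := cs_le (hS.pos 1) (hS.pos 2) (hS.pos 3) hbd.s0
  have c3 := cs_le (hS.pos 1) (hS.pos 3) (hS.pos 2) hbd.s0.swap.rot
  have hL : 0 ≤ (1 - cs (v 1) (v 2) (v 3)) * (1 - cs (v 1) (v 3) (v 2)) :=
    mul_nonneg (by linarith) (by linarith)
  rw [hst] at hL
  have hR : t * brk (a, v) < 0 := mul_neg_of_pos_of_neg hN.t0 hX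
  exact absurd hL (not_le.2 hR)

end Pool.Agent.Helper35.EIN2
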